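import Pool.Agent.X235.Xor.QTwo

set_option autoImplicit false

/-!
A computable shift-invariant measure whose `μ`-limit set under the XOR automaton is not computable.
-/

namespace Pool.Agent.Results.MP_02be1f_lc.LimitLanguage

open MeasureTheory Filter Topology
open Pool.Agent.X235.Xor

/-- The `μ`-limit set of the XOR automaton, as a language: the words `w` for which
`(F^n μ)([w])` does not tend to `0`. -/
def muLimitSet (μ : Measure (ℤ → Bool)) : Set (List Bool) :=
  {w | ¬ Tendsto (fun n => (μ.map (F^[n])) (cyl w)) atTop (𝓝 0)}

/-- There is a computable shift-invariant probability measure `μ` on `{0,1}^ℤ` whose `μ`-limit set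
under the XOR automaton is not decidable. -/
theorem result : ∃ μ : Measure (ℤ → Bool),
    IsProbabilityMeasure μ ∧ μ.map shift = μ ∧ ComputableMeasure μ ∧
    ¬ ComputablePred fun w : List Bool => w ∈ muLimitSet μ := by
  obtain ⟨Q, hQ, hK⟩ := exists_Q
  refine ⟨M (DD Q (fun _ t => t) (fun e _ => e)) N0, M_prob _ _, M_map_shift _ _, ?_, ?_⟩
  · exact M_computable hQ Computable.snd Computable.fst (fun _ _ => by omega)
  · intro h
    apply hK
    have h1 := Pool.Agent.Helper446.RE.cp_comp h computable_wq
    have h2 : (fun e : ℕ => wq (2 ^ e) ∈ muLimitSet (M (DD Q (fun _ t => t) (fun e _ => e)) N0)) =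
        fun e => ∃ t, Q e t = true := by
      funext e
      exact propext (mem_limit e)
    rw [h2] at h1
    exact h1

end Pool.Agent.Results.MP_02be1f_lc.LimitLanguage
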