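import Pool.Agent.X235.Xor.QOne

set_option autoImplicit false

/-!
A computable shift-invariant measure whose images under the XOR automaton have a noncomputable
weak-* limit point.
-/

namespace Pool.Agent.Results.MP_02be1f_lc.LimitPoint

open MeasureTheory Filter Topology
open Pool.Agent.X235.Xor

/-- `ν` is a weak-* limit point of the sequence `F^n μ`: along some strictly increasing sequence
`φ` of times the measures `(F^(φ k) μ)([w])` converge to `ν([w])` for every word `w`. -/
def IsLimitPoint (μ ν : Measure (ℤ → Bool)) : Prop :=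
  ∃ φ : ℕ → ℕ, StrictMono φ ∧
    ∀ w : List Bool, Tendsto (fun k => (μ.map (F^[φ k])) (cyl w)) atTop (𝓝 (ν (cyl w)))

/-- There is a computable shift-invariant probability measure `μ` on `{0,1}^ℤ` for which the
sequence `F^n μ` has a weak-* limit point that is not computable. -/
theorem result : ∃ μ ν : Measure (ℤ → Bool),
    IsProbabilityMeasure μ ∧ μ.map shift = μ ∧ ComputableMeasure μ ∧
    IsProbabilityMeasure ν ∧ ν.map shift = ν ∧ IsLimitPoint μ ν ∧ ¬ ComputableMeasure ν := by
  obtain ⟨Q, hQ, hK⟩ := exists_Q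
  refine ⟨M (DD Q (fun _ _ => 0) (fun _ t => t)) N0, M (DD Q (fun _ _ => 0) (fun _ t => t)) NI,
    M_prob _ _, M_map_shift _ _, ?_, M_prob _ _, M_map_shift _ _, ?_, not_comp hQ hK⟩
  · exact M_computable hQ (Computable.const 0) Computable.snd (fun _ _ => by omega)
  · refine ⟨fun k => 2 ^ k - 1, ?_, fun w => tendsto_M _ w⟩
    refine strictMono_nat_of_lt_succ fun k => ?_
    have : 1 ≤ 2 ^ k := Nat.one_le_two_pow
    rw [pow_succ]
    omega

end Pool.Agent.Results.MP_02be1f_lc.LimitPoint
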